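import Mathlib

open Matrix Complex
open scoped Kronecker BigOperators ComplexOrder

namespace Pool.Agent.Results.MP_9a8b60_mp.SepCounterexample

/-- A state: positive semidefinite, trace one. -/
def IsState {ι : Type} [Fintype ι] (ρ : Matrix ι ι ℂ) : Prop :=
  ρ.PosSemidef ∧ ρ.trace = 1

/-- Reduced matrix on the first tensor factor. -/
def marg1 {d : ℕ} (R : Matrix (Fin d × Fin d) (Fin d × Fin d) ℂ) : Matrix (Fin d) (Fin d) ℂ :=
  Matrix.of fun i i' => ∑ j, R (i, j) (i', j)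

/-- Reduced matrix on the second tensor factor. -/
def marg2 {d : ℕ} (R : Matrix (Fin d × Fin d) (Fin d × Fin d) ℂ) : Matrix (Fin d) (Fin d) ℂ :=
  Matrix.of fun j j' => ∑ i, R (i, j) (i, j')

/-- The De Palma-Trevisan transport cost of a bipartite matrix `R`. -/
noncomputable def cost {d N : ℕ} (H : Fin N → Matrix (Fin d) (Fin d) ℂ)
    (R : Matrix (Fin d × Fin d) (Fin d × Fin d) ℂ) : ℝ :=
  (1 / 2) * ∑ n, (trace (R * ((H n)ᵀ ⊗ₖ (1 : Matrix (Fin d) (Fin d) ℂ)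
    - (1 : Matrix (Fin d) (Fin d) ℂ) ⊗ₖ H n) ^ 2)).re

/-- `R` is a state whose reduced states are `ρᵀ` (first factor) and `σ` (second factor). -/
def IsCoupling {d : ℕ} (ρ σ : Matrix (Fin d) (Fin d) ℂ)
    (R : Matrix (Fin d × Fin d) (Fin d × Fin d) ℂ) : Prop :=
  IsState R ∧ marg1 R = ρᵀ ∧ marg2 R = σ

/-- The squared De Palma-Trevisan distance. -/
noncomputable def W {d N : ℕ} (H : Fin N → Matrix (Fin d) (Fin d) ℂ)
    (ρ σ : Matrix (Fin d) (Fin d) ℂ) : ℝ :=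
  sInf {c | ∃ R, IsCoupling ρ σ R ∧ c = cost H R}

/-- The rank one projection onto a unit vector. -/
def proj {d : ℕ} (ψ : Fin d → ℂ) : Matrix (Fin d) (Fin d) ℂ := vecMulVec ψ (star ψ)

/-- Finite families of weights and pairs of unit vectors decomposing `ρ` and `σ`. -/
def IsSepFamily {d K : ℕ} (ρ σ : Matrix (Fin d) (Fin d) ℂ) (p : Fin K → ℝ)
    (Ψ Φ : Fin K → Fin d → ℂ) : Prop :=
  (∀ k, 0 < p k) ∧ ∑ k, p k = 1 ∧ (∀ k, star (Ψ k) ⬝ᵥ Ψ k = 1) ∧ (∀ k, star (Φ k) ⬝ᵥ Φ k = 1) ∧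
    ∑ k, (p k : ℂ) • proj (Ψ k) = ρ ∧ ∑ k, (p k : ℂ) • proj (Φ k) = σ

/-- The squared separable distance. -/
noncomputable def Wsep {d N : ℕ} (H : Fin N → Matrix (Fin d) (Fin d) ℂ)
    (ρ σ : Matrix (Fin d) (Fin d) ℂ) : ℝ :=
  sInf {c | ∃ (K : ℕ) (p : Fin K → ℝ) (Ψ Φ : Fin K → Fin d → ℂ),
    IsSepFamily ρ σ p Ψ Φ ∧ c = ∑ k, p k * W H (proj (Ψ k)) (proj (Φ k))}

/-- The modified squared distance. -/
noncomputable def Wmod {d N : ℕ} (H : Fin N → Matrix (Fin d) (Fin d) ℂ)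
    (ρ σ : Matrix (Fin d) (Fin d) ℂ) : ℝ :=
  W H ρ σ - (1 / 2) * (W H ρ ρ + W H σ σ)

/-- The modified squared separable distance. -/
noncomputable def Wsepmod {d N : ℕ} (H : Fin N → Matrix (Fin d) (Fin d) ℂ)
    (ρ σ : Matrix (Fin d) (Fin d) ℂ) : ℝ :=
  Wsep H ρ σ - (1 / 2) * (Wsep H ρ ρ + Wsep H σ σ)

section general

variable {d N : ℕ}

lemma trace_mul_kron_one (R : Matrix (Fin d × Fin d) (Fin d × Fin d) ℂ)
    (A : Matrix (Fin d) (Fin d) ℂ) :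
    trace (R * (A ⊗ₖ (1 : Matrix (Fin d) (Fin d) ℂ))) = trace (marg1 R * A) := by
  simp only [trace, diag_apply, mul_apply, Fintype.sum_prod_type, kroneckerMap_apply, one_apply,
    marg1, of_apply, mul_ite, mul_one, mul_zero, Finset.sum_ite_eq', Finset.mem_univ, if_true]
  refine Finset.sum_congr rfl fun i _ => ?_
  rw [Finset.sum_comm]
  refine Finset.sum_congr rfl fun k _ => ?_
  rw [Finset.sum_mul]

lemma trace_mul_one_kron (R : Matrix (Fin d × Fin d) (Fin d × Fin d) ℂ)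
    (B : Matrix (Fin d) (Fin d) ℂ) :
    trace (R * ((1 : Matrix (Fin d) (Fin d) ℂ) ⊗ₖ B)) = trace (marg2 R * B) := by
  simp only [trace, diag_apply, mul_apply, Fintype.sum_prod_type, kroneckerMap_apply, one_apply,
    marg2, of_apply, mul_ite, ite_mul, one_mul, zero_mul, mul_zero]
  rw [Finset.sum_comm]
  refine Finset.sum_congr rfl fun j _ => ?_
  simp only [Finset.sum_mul]
  rw [Finset.sum_comm (s := Finset.univ) (t := Finset.univ) (f := fun x i => R (i, j) (i, x) * B x j)]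
  refine Finset.sum_congr rfl fun i _ => ?_
  rw [Finset.sum_comm]
  refine Finset.sum_congr rfl fun k _ => ?_
  simp

lemma sq_expand (A B : Matrix (Fin d) (Fin d) ℂ) :
    (A ⊗ₖ (1 : Matrix (Fin d) (Fin d) ℂ) - (1 : Matrix (Fin d) (Fin d) ℂ) ⊗ₖ B) ^ 2
      = (A ^ 2) ⊗ₖ (1 : Matrix (Fin d) (Fin d) ℂ) + (1 : Matrix (Fin d) (Fin d) ℂ) ⊗ₖ (B ^ 2)
        - (2 : ℂ) • (A ⊗ₖ B) := by
  rw [sq, sub_mul, mul_sub, mul_sub, ← mul_kronecker_mul, ← mul_kronecker_mul,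
    ← mul_kronecker_mul, ← mul_kronecker_mul]
  simp only [one_mul, mul_one, ← sq, two_smul, one_pow]
  abel

/-- The cost in terms of the marginals and the correlation term. -/
lemma cost_eq (H : Fin N → Matrix (Fin d) (Fin d) ℂ) {ρ σ : Matrix (Fin d) (Fin d) ℂ}
    {R : Matrix (Fin d × Fin d) (Fin d × Fin d) ℂ} (h1 : marg1 R = ρᵀ) (h2 : marg2 R = σ) :
    cost H R = (1 / 2) * ∑ n, ((trace (ρ * H n ^ 2)).re + (trace (σ * H n ^ 2)).re)
      - ∑ n, (trace (R * ((H n)ᵀ ⊗ₖ H n))).re := by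
  have key : ∀ n, (trace (R * ((H n)ᵀ ⊗ₖ (1 : Matrix (Fin d) (Fin d) ℂ)
    - (1 : Matrix (Fin d) (Fin d) ℂ) ⊗ₖ H n) ^ 2)).re
      = (trace (ρ * H n ^ 2)).re + (trace (σ * H n ^ 2)).re
        - 2 * (trace (R * ((H n)ᵀ ⊗ₖ H n))).re := by
    intro n
    rw [sq_expand, mul_sub, mul_add, trace_sub, trace_add, trace_mul_kron_one,
      trace_mul_one_kron, h1, h2]
    have : trace (ρᵀ * (H n)ᵀ ^ 2) = trace (ρ * H n ^ 2) := by
      rw [← transpose_pow, ← transpose_mul, trace_transpose, trace_mul_comm]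
    rw [this, Matrix.mul_smul, trace_smul]
    simp
  unfold cost
  rw [Finset.sum_congr rfl fun n _ => key n, Finset.sum_sub_distrib, ← Finset.mul_sum]
  ring

lemma proj_transpose (ψ : Fin d → ℂ) : (proj ψ)ᵀ = proj (star ψ) := by
  ext i j
  simp [proj, vecMulVec_apply, mul_comm]

/-- A positive semidefinite matrix with a rank one first marginal is a product. -/
lemma eq_kron_of_marg1 {R : Matrix (Fin d × Fin d) (Fin d × Fin d) ℂ} (hR : R.PosSemidef)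
    {ψ : Fin d → ℂ} (hψ : star ψ ⬝ᵥ ψ = 1) (h1 : marg1 R = proj ψ) :
    R = proj ψ ⊗ₖ marg2 R := by
  classical
  -- product vectors
  set tens : (Fin d → ℂ) → Fin d → (Fin d × Fin d → ℂ) :=
    fun v j x => v x.1 * (if x.2 = j then 1 else 0) with htens
  have hquad : ∀ (v w : Fin d → ℂ) (j j' : Fin d),
      star (tens v j) ⬝ᵥ R *ᵥ (tens w j') = ∑ i, ∑ i', star (v i) * R (i, j) (i', j') * w i' := by
    intro v w j j'
    simp only [dotProduct, mulVec, Pi.star_apply, htens, Fintype.sum_prod_type]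
    refine Finset.sum_congr rfl fun i _ => ?_
    rw [Finset.sum_eq_single j]
    · simp only [if_true, mul_one]
      rw [Finset.mul_sum]
      refine Finset.sum_congr rfl fun i' _ => ?_
      rw [Finset.sum_eq_single j']
      · simp [mul_assoc]
      · intro b _ hb; simp [hb]
      · simp
    · intro b _ hb; simp [hb]
    · simp
  have hsum : ∀ v : Fin d → ℂ, ∑ j, star (tens v j) ⬝ᵥ R *ᵥ (tens v j)
      = star v ⬝ᵥ (proj ψ) *ᵥ v := by
    intro v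
    rw [← h1, Finset.sum_congr rfl fun j _ => hquad v v j j]
    simp only [dotProduct, mulVec, Pi.star_apply, marg1, of_apply]
    rw [Finset.sum_comm]
    refine Finset.sum_congr rfl fun i _ => ?_
    rw [Finset.sum_comm, Finset.mul_sum]
    refine Finset.sum_congr rfl fun i' _ => ?_
    rw [Finset.sum_mul, Finset.mul_sum]
    refine Finset.sum_congr rfl fun j _ => ?_
    ring
  have hzero : ∀ v : Fin d → ℂ, star ψ ⬝ᵥ v = 0 → ∀ j, R *ᵥ (tens v j) = 0 := by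
    intro v hv j
    have h0 : ∑ j, star (tens v j) ⬝ᵥ R *ᵥ (tens v j) = 0 := by
      rw [hsum, proj, vecMulVec_mulVec]
      simp [hv]
    have hnn : ∀ j ∈ Finset.univ, 0 ≤ star (tens v j) ⬝ᵥ R *ᵥ (tens v j) :=
      fun j _ => hR.dotProduct_mulVec_nonneg _
    have := (Finset.sum_eq_zero_iff_of_nonneg hnn).1 h0 j (Finset.mem_univ _)
    exact (hR.dotProduct_mulVec_zero_iff _).1 this
  -- decompose the basis vector
  have hdec : ∀ i j, R *ᵥ (tens (Pi.single i 1) j) = star (ψ i) • R *ᵥ (tens ψ j) := by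
    intro i j
    have hv : star ψ ⬝ᵥ (Pi.single i 1 - star (ψ i) • ψ) = 0 := by
      rw [dotProduct_sub, dotProduct_smul, hψ]
      simp
    have := hzero _ hv j
    have hlin : tens (Pi.single i 1 - star (ψ i) • ψ) j
        = tens (Pi.single i 1) j - star (ψ i) • tens ψ j := by
      ext x
      simp only [htens, Pi.sub_apply, Pi.smul_apply, smul_eq_mul]
      ring
    rw [hlin, mulVec_sub, mulVec_smul, sub_eq_zero] at this
    exact this
  have hcol : ∀ i j, tens (Pi.single i 1) j = Pi.single (i, j) 1 := by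
    intro i j
    ext ⟨a, b⟩
    simp only [htens, Pi.single_apply, Prod.mk.injEq]
    by_cases ha : a = i <;> by_cases hb : b = j <;> simp [ha, hb]
  set S : Fin d → Fin d → ℂ := fun j j' => star (tens ψ j) ⬝ᵥ R *ᵥ (tens ψ j') with hS
  have hentry : ∀ i j i' j', R (i, j) (i', j') = star (ψ i') * (R *ᵥ (tens ψ j')) (i, j) := by
    intro i j i' j'
    have := congrFun (hdec i' j') (i, j)
    rw [hcol, mulVec_single_one] at this
    simpa using this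
  have hentry2 : ∀ i j j', (R *ᵥ (tens ψ j')) (i, j) = ψ i * S j j' := by
    intro i j j'
    have h3 : star (tens (Pi.single i 1) j) ⬝ᵥ R *ᵥ (tens ψ j') = (R *ᵥ (tens ψ j')) (i, j) := by
      rw [hcol]
      simp [dotProduct, Pi.single_apply]
    rw [← h3]
    have h4 : star (tens (Pi.single i 1) j) ⬝ᵥ R *ᵥ (tens ψ j')
        = star (R *ᵥ (tens (Pi.single i 1) j)) ⬝ᵥ (tens ψ j') := by
      rw [star_mulVec, hR.isHermitian.eq, dotProduct_mulVec]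
    rw [h4, hdec, star_smul, star_star, smul_dotProduct, star_mulVec, hR.isHermitian.eq, ← dotProduct_mulVec]
    simp [hS]
  have hfin : ∀ i j i' j', R (i, j) (i', j') = ψ i * star (ψ i') * S j j' := by
    intro i j i' j'
    rw [hentry, hentry2]; ring
  have hm2 : marg2 R = Matrix.of S := by
    ext j j'
    simp only [marg2, of_apply]
    calc ∑ i, R (i, j) (i, j') = ∑ i, (star ψ i * ψ i) * S j j' := by
          refine Finset.sum_congr rfl fun i _ => ?_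
          rw [hfin]; simp only [Pi.star_apply]; ring
      _ = (star ψ ⬝ᵥ ψ) * S j j' := by rw [dotProduct, Finset.sum_mul]
      _ = S j j' := by rw [hψ, one_mul]
  ext ⟨i, j⟩ ⟨i', j'⟩
  rw [hfin, hm2]
  simp [proj, kroneckerMap_apply, vecMulVec_apply]

lemma star_unit {ψ : Fin d → ℂ} (hψ : star ψ ⬝ᵥ ψ = 1) : star (star ψ) ⬝ᵥ star ψ = 1 := by
  rw [star_star, dotProduct_comm, hψ]

lemma proj_posSemidef (ψ : Fin d → ℂ) : (proj ψ).PosSemidef := posSemidef_vecMulVec_self_star ψ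

lemma proj_trace {ψ : Fin d → ℂ} (hψ : star ψ ⬝ᵥ ψ = 1) : (proj ψ).trace = 1 := by
  rw [proj, trace_vecMulVec, dotProduct_comm, hψ]

lemma marg1_kron (A B : Matrix (Fin d) (Fin d) ℂ) : marg1 (A ⊗ₖ B) = B.trace • A := by
  ext i j
  simp [marg1, kroneckerMap_apply, trace, Finset.mul_sum, mul_comm]

lemma marg2_kron (A B : Matrix (Fin d) (Fin d) ℂ) : marg2 (A ⊗ₖ B) = A.trace • B := by
  ext i j
  simp [marg2, kroneckerMap_apply, trace, Finset.mul_sum, mul_comm]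

lemma isCoupling_kron {ρ σ : Matrix (Fin d) (Fin d) ℂ} (hρ : IsState ρ) (hσ : IsState σ) :
    IsCoupling ρ σ (ρᵀ ⊗ₖ σ) := by
  refine ⟨⟨hρ.1.transpose.kronecker hσ.1, ?_⟩, ?_, ?_⟩
  · rw [trace_kronecker, trace_transpose, hρ.2, hσ.2, one_mul]
  · rw [marg1_kron, hσ.2, one_smul]
  · rw [marg2_kron, trace_transpose, hρ.2, one_smul]

lemma isState_proj {ψ : Fin d → ℂ} (hψ : star ψ ⬝ᵥ ψ = 1) : IsState (proj ψ) :=
  ⟨proj_posSemidef ψ, proj_trace hψ⟩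

/-- Value of the distance between pure states. -/
lemma W_pure (H : Fin N → Matrix (Fin d) (Fin d) ℂ) {ψ φ : Fin d → ℂ}
    (hψ : star ψ ⬝ᵥ ψ = 1) (hφ : star φ ⬝ᵥ φ = 1) :
    W H (proj ψ) (proj φ)
      = (1 / 2) * ∑ n, ((trace (proj ψ * H n ^ 2)).re + (trace (proj φ * H n ^ 2)).re)
      - ∑ n, (trace (proj ψ * H n) * trace (proj φ * H n)).re := by
  have hset : {c | ∃ R, IsCoupling (proj ψ) (proj φ) R ∧ c = cost H R}
      = {cost H ((proj ψ)ᵀ ⊗ₖ proj φ)} := by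
    ext c
    simp only [Set.mem_ofPred_eq, Set.mem_singleton_iff]
    constructor
    · rintro ⟨R, ⟨⟨hR, -⟩, h1, h2⟩, rfl⟩
      rw [proj_transpose] at h1
      have := eq_kron_of_marg1 hR (star_unit hψ) h1
      rw [h2] at this
      rw [this, proj_transpose]
    · rintro rfl
      exact ⟨_, isCoupling_kron (isState_proj hψ) (isState_proj hφ), rfl⟩
  have hc := isCoupling_kron (isState_proj hψ) (isState_proj hφ)
  rw [W, hset, csInf_singleton, cost_eq H hc.2.1 hc.2.2]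
  congr 1
  refine Finset.sum_congr rfl fun n _ => ?_
  rw [← mul_kronecker_mul, trace_kronecker, ← transpose_mul, trace_transpose, trace_mul_comm (H n)]

lemma cost_nonneg {H : Fin N → Matrix (Fin d) (Fin d) ℂ} (hH : ∀ n, (H n).IsHermitian)
    {R : Matrix (Fin d × Fin d) (Fin d × Fin d) ℂ} (hR : R.PosSemidef) : 0 ≤ cost H R := by
  unfold cost
  refine mul_nonneg (by norm_num) (Finset.sum_nonneg fun n _ => ?_)
  set M := (H n)ᵀ ⊗ₖ (1 : Matrix (Fin d) (Fin d) ℂ)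
    - (1 : Matrix (Fin d) (Fin d) ℂ) ⊗ₖ H n with hM
  have hMh : Mᴴ = M := by
    rw [hM, conjTranspose_sub, conjTranspose_kronecker, conjTranspose_kronecker, (hH n).eq,
      conjTranspose_one, (hH n).transpose.eq]
  have h1 : trace (R * M ^ 2) = trace (Mᴴ * R * M) := by
    rw [hMh, sq, ← Matrix.mul_assoc, trace_mul_comm, Matrix.mul_assoc]
  rw [h1]
  exact (Complex.nonneg_iff.1 (hR.conjTranspose_mul_mul_same M).trace_nonneg).1

lemma bddBelow_W {H : Fin N → Matrix (Fin d) (Fin d) ℂ} (hH : ∀ n, (H n).IsHermitian)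
    (ρ σ : Matrix (Fin d) (Fin d) ℂ) : BddBelow {c | ∃ R, IsCoupling ρ σ R ∧ c = cost H R} :=
  ⟨0, by rintro c ⟨R, hR, rfl⟩; exact cost_nonneg hH hR.1.1⟩

lemma W_nonneg {H : Fin N → Matrix (Fin d) (Fin d) ℂ} (hH : ∀ n, (H n).IsHermitian)
    (ρ σ : Matrix (Fin d) (Fin d) ℂ) : 0 ≤ W H ρ σ :=
  Real.sInf_nonneg (by rintro c ⟨R, hR, rfl⟩; exact cost_nonneg hH hR.1.1)

lemma W_le {H : Fin N → Matrix (Fin d) (Fin d) ℂ} (hH : ∀ n, (H n).IsHermitian)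
    {ρ σ : Matrix (Fin d) (Fin d) ℂ} {R : Matrix (Fin d × Fin d) (Fin d × Fin d) ℂ}
    (hR : IsCoupling ρ σ R) : W H ρ σ ≤ cost H R :=
  csInf_le (bddBelow_W hH ρ σ) ⟨R, hR, rfl⟩

lemma Wsep_le {H : Fin N → Matrix (Fin d) (Fin d) ℂ} (hH : ∀ n, (H n).IsHermitian)
    {ρ σ : Matrix (Fin d) (Fin d) ℂ} {K : ℕ} {p : Fin K → ℝ} {Ψ Φ : Fin K → Fin d → ℂ}
    (h : IsSepFamily ρ σ p Ψ Φ) :
    Wsep H ρ σ ≤ ∑ k, p k * W H (proj (Ψ k)) (proj (Φ k)) := by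
  refine csInf_le ⟨0, ?_⟩ ⟨K, p, Ψ, Φ, h, rfl⟩
  rintro c ⟨K, p, Ψ, Φ, h, rfl⟩
  exact Finset.sum_nonneg fun k _ => mul_nonneg (h.1 k).le (W_nonneg hH _ _)

lemma psd_re {ι : Type} [Fintype ι] [DecidableEq ι] {R : Matrix ι ι ℂ} (hR : R.PosSemidef)
    (x y : ι) : (R x y).re + (R y x).re ≤ (R x x).re + (R y y).re := by
  have h := hR.dotProduct_mulVec_nonneg (Pi.single x 1 - Pi.single y 1)
  have e : star (Pi.single x 1 - Pi.single y 1 : ι → ℂ) ⬝ᵥ R *ᵥ (Pi.single x 1 - Pi.single y 1)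
      = R x x - R x y - (R y x - R y y) := by
    simp [mulVec_sub, sub_dotProduct, dotProduct_sub, Pi.star_single]
    ring
  rw [e] at h
  have := (Complex.nonneg_iff.1 h).1
  simp only [sub_re] at this
  linarith

lemma psd_zero {ι : Type} [Fintype ι] [DecidableEq ι] {R : Matrix ι ι ℂ} (hR : R.PosSemidef)
    {x : ι} (hx : R x x = 0) (y : ι) : R y x = 0 ∧ R x y = 0 := by
  have h : star (Pi.single x 1 : ι → ℂ) ⬝ᵥ R *ᵥ (Pi.single x 1) = 0 := by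
    simp [Pi.star_single, hx]
  have h2 := (hR.dotProduct_mulVec_zero_iff _).1 h
  have h3 : R y x = 0 := by
    have := congrFun h2 y
    simpa using this
  refine ⟨h3, ?_⟩
  have := hR.isHermitian.apply x y
  rw [← this, h3, star_zero]

lemma support_zero {K : ℕ} {ρ : Matrix (Fin d) (Fin d) ℂ} {p : Fin K → ℝ}
    {Ψ : Fin K → Fin d → ℂ} (hp : ∀ k, 0 < p k) (h : ∑ k, (p k : ℂ) • proj (Ψ k) = ρ)
    {i : Fin d} (hi : ρ i i = 0) (k : Fin K) : Ψ k i = 0 := by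
  have h1 : ∑ k, p k * Complex.normSq (Ψ k i) = 0 := by
    have := congrFun (congrFun h i) i
    rw [hi] at this
    have h2 : (∑ k, (p k : ℂ) • proj (Ψ k)) i i = ((∑ k, p k * Complex.normSq (Ψ k i) : ℝ) : ℂ) := by
      rw [Matrix.sum_apply]
      push_cast
      refine Finset.sum_congr rfl fun k _ => ?_
      simp only [Matrix.smul_apply, proj, vecMulVec_apply, Pi.star_apply, smul_eq_mul, star_def,
        Complex.mul_conj]
    rw [h2] at this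
    exact_mod_cast this
  have h3 := (Finset.sum_eq_zero_iff_of_nonneg
    (fun k _ => mul_nonneg (hp k).le (Complex.normSq_nonneg (Ψ k i)))).1 h1 k (Finset.mem_univ _)
  rcases mul_eq_zero.1 h3 with h4 | h4
  · exact absurd h4 (hp k).ne'
  · exact Complex.normSq_eq_zero.1 h4

end general

/-! ### The example -/

/-- The two observables, block diagonal on `ℂ² ⊕ ℂ²`. -/
def Hex (a b : ℝ) : Fin 2 → Matrix (Fin 4) (Fin 4) ℂ :=
  ![!![0, a, 0, 0; a, 0, 0, 0; 0, 0, 0, b; 0, 0, b, 0],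
    !![b, 0, 0, 0; 0, -b, 0, 0; 0, 0, a, 0; 0, 0, 0, -a]]

/-- maximally mixed state of the first block -/
noncomputable def ρex : Matrix (Fin 4) (Fin 4) ℂ := diagonal ![1/2, 1/2, 0, 0]

/-- maximally mixed state of the second block -/
noncomputable def σex : Matrix (Fin 4) (Fin 4) ℂ := diagonal ![0, 0, 1/2, 1/2]

lemma Hex_herm (a b : ℝ) (n : Fin 2) : (Hex a b n).IsHermitian := by
  unfold Matrix.IsHermitian
  fin_cases n <;>
  · ext i j
    fin_cases i <;> fin_cases j <;> simp [Hex]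

lemma ρex_state : IsState ρex := by
  refine ⟨?_, ?_⟩
  · rw [ρex, posSemidef_diagonal_iff]
    intro i; fin_cases i <;> simp
  · simp [ρex, trace, Fin.sum_univ_four]; norm_num

lemma σex_state : IsState σex := by
  refine ⟨?_, ?_⟩
  · rw [σex, posSemidef_diagonal_iff]
    intro i; fin_cases i <;> simp
  · simp [σex, trace, Fin.sum_univ_four]; norm_num

/-- half of the rank one matrix of a sum of two product basis vectors -/
noncomputable def Rex (x y : Fin 4 × Fin 4) : Matrix (Fin 4 × Fin 4) (Fin 4 × Fin 4) ℂ :=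
  (1/2 : ℂ) • vecMulVec (Pi.single x 1 + Pi.single y 1) (star (Pi.single x 1 + Pi.single y 1))

lemma Rex_psd (x y : Fin 4 × Fin 4) : (Rex x y).PosSemidef := by
  refine (posSemidef_vecMulVec_self_star _).smul ?_
  rw [Complex.nonneg_iff]; norm_num

lemma Rex_trace_mul (x y : Fin 4 × Fin 4) (M : Matrix (Fin 4 × Fin 4) (Fin 4 × Fin 4) ℂ) :
    trace (Rex x y * M) = (1/2) * (M x x + M x y + M y x + M y y) := by
  rw [Rex, Matrix.smul_mul, trace_smul, vecMulVec_mul, trace_vecMulVec, dotProduct_comm,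
    ← dotProduct_mulVec]
  simp [mulVec_add, add_dotProduct, dotProduct_add, Pi.star_single]
  ring

lemma coup_ρσ : IsCoupling ρex σex (Rex (0, 2) (1, 3)) := by
  refine ⟨⟨Rex_psd _ _, ?_⟩, ?_, ?_⟩
  · rw [← mul_one (Rex _ _), Rex_trace_mul]
    simp; norm_num
  · ext i j
    fin_cases i <;> fin_cases j <;>
      simp [Rex, marg1, Fin.sum_univ_four, vecMulVec_apply, Pi.single_apply, ρex]
  · ext i j
    fin_cases i <;> fin_cases j <;>
      simp [Rex, marg2, Fin.sum_univ_four, vecMulVec_apply, Pi.single_apply, σex]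

lemma coup_ρρ : IsCoupling ρex ρex (Rex (0, 0) (1, 1)) := by
  refine ⟨⟨Rex_psd _ _, ?_⟩, ?_, ?_⟩
  · rw [← mul_one (Rex _ _), Rex_trace_mul]
    simp; norm_num
  · ext i j
    fin_cases i <;> fin_cases j <;>
      simp [Rex, marg1, Fin.sum_univ_four, vecMulVec_apply, Pi.single_apply, ρex]
  · ext i j
    fin_cases i <;> fin_cases j <;>
      simp [Rex, marg2, Fin.sum_univ_four, vecMulVec_apply, Pi.single_apply, ρex]

lemma coup_σσ : IsCoupling σex σex (Rex (2, 2) (3, 3)) := by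
  refine ⟨⟨Rex_psd _ _, ?_⟩, ?_, ?_⟩
  · rw [← mul_one (Rex _ _), Rex_trace_mul]
    simp; norm_num
  · ext i j
    fin_cases i <;> fin_cases j <;>
      simp [Rex, marg1, Fin.sum_univ_four, vecMulVec_apply, Pi.single_apply, σex]
  · ext i j
    fin_cases i <;> fin_cases j <;>
      simp [Rex, marg2, Fin.sum_univ_four, vecMulVec_apply, Pi.single_apply, σex]

lemma Hsq0 (a b : ℝ) : Hex a b 0 ^ 2 = diagonal ![(a:ℂ)^2, (a:ℂ)^2, (b:ℂ)^2, (b:ℂ)^2] := by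
  rw [sq]
  ext i j
  fin_cases i <;> fin_cases j <;>
    simp [Hex, Matrix.mul_apply, Fin.sum_univ_four, ← sq]

lemma Hsq1 (a b : ℝ) : Hex a b 1 ^ 2 = diagonal ![(b:ℂ)^2, (b:ℂ)^2, (a:ℂ)^2, (a:ℂ)^2] := by
  rw [sq]
  ext i j
  fin_cases i <;> fin_cases j <;>
    simp [Hex, Matrix.mul_apply, Fin.sum_univ_four, ← sq]

lemma tr_ρ (a b : ℝ) : ∑ n, (trace (ρex * Hex a b n ^ 2)).re = a ^ 2 + b ^ 2 := by
  rw [Fin.sum_univ_two, Hsq0, Hsq1, ρex, diagonal_mul_diagonal, diagonal_mul_diagonal]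
  simp [trace, Fin.sum_univ_four, ← Complex.ofReal_pow]
  ring

lemma tr_σ (a b : ℝ) : ∑ n, (trace (σex * Hex a b n ^ 2)).re = a ^ 2 + b ^ 2 := by
  rw [Fin.sum_univ_two, Hsq0, Hsq1, σex, diagonal_mul_diagonal, diagonal_mul_diagonal]
  simp [trace, Fin.sum_univ_four, ← Complex.ofReal_pow]
  ring

lemma cost_ρσ (a b : ℝ) : cost (Hex a b) (Rex (0, 2) (1, 3)) = (a - b) ^ 2 := by
  rw [cost_eq (Hex a b) coup_ρσ.2.1 coup_ρσ.2.2, Finset.sum_add_distrib, tr_ρ, tr_σ,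
    Fin.sum_univ_two, Rex_trace_mul, Rex_trace_mul]
  simp [Hex, kroneckerMap_apply]
  ring

lemma cost_ρρ (a b : ℝ) : cost (Hex a b) (Rex (0, 0) (1, 1)) = 0 := by
  rw [cost_eq (Hex a b) coup_ρρ.2.1 coup_ρρ.2.2, Finset.sum_add_distrib, tr_ρ,
    Fin.sum_univ_two, Rex_trace_mul, Rex_trace_mul]
  simp [Hex, kroneckerMap_apply]
  ring

lemma cost_σσ (a b : ℝ) : cost (Hex a b) (Rex (2, 2) (3, 3)) = 0 := by
  rw [cost_eq (Hex a b) coup_σσ.2.1 coup_σσ.2.2, Finset.sum_add_distrib, tr_σ,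
    Fin.sum_univ_two, Rex_trace_mul, Rex_trace_mul]
  simp [Hex, kroneckerMap_apply]
  ring

lemma marg1_zero {R : Matrix (Fin 4 × Fin 4) (Fin 4 × Fin 4) ℂ} (hR : R.PosSemidef)
    {i : Fin 4} (h : marg1 R i i = 0) (j : Fin 4) : R (i, j) (i, j) = 0 := by
  have h' : ∑ j, R (i, j) (i, j) = 0 := h
  exact (Finset.sum_eq_zero_iff_of_nonneg
    (fun j _ => hR.diag_nonneg (i := (i, j)))).1 h' j (Finset.mem_univ _)

lemma marg2_zero {R : Matrix (Fin 4 × Fin 4) (Fin 4 × Fin 4) ℂ} (hR : R.PosSemidef)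
    {j : Fin 4} (h : marg2 R j j = 0) (i : Fin 4) : R (i, j) (i, j) = 0 := by
  have h' : ∑ i, R (i, j) (i, j) = 0 := h
  exact (Finset.sum_eq_zero_iff_of_nonneg
    (fun i _ => hR.diag_nonneg (i := (i, j)))).1 h' i (Finset.mem_univ _)

lemma corr_le {a b : ℝ} (ha : 0 ≤ a) (hb : 0 ≤ b)
    {R : Matrix (Fin 4 × Fin 4) (Fin 4 × Fin 4) ℂ} (hR : IsCoupling ρex σex R) :
    ∑ n, (trace (R * ((Hex a b n)ᵀ ⊗ₖ Hex a b n))).re ≤ 2 * (a * b) := by
  obtain ⟨⟨hP, htr⟩, h1, h2⟩ := hR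
  have d2 : ∀ j, R (2, j) (2, j) = 0 := marg1_zero hP (by rw [h1]; simp [ρex])
  have d3 : ∀ j, R (3, j) (3, j) = 0 := marg1_zero hP (by rw [h1]; simp [ρex])
  have e0 : ∀ i, R (i, 0) (i, 0) = 0 := marg2_zero hP (by rw [h2]; simp [σex])
  have e1 : ∀ i, R (i, 1) (i, 1) = 0 := marg2_zero hP (by rw [h2]; simp [σex])
  have f2 : ∀ j y, R y (2, j) = 0 ∧ R (2, j) y = 0 := fun j y => psd_zero hP (d2 j) y
  have f3 : ∀ j y, R y (3, j) = 0 ∧ R (3, j) y = 0 := fun j y => psd_zero hP (d3 j) y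
  have g0 : ∀ i y, R y (i, 0) = 0 ∧ R (i, 0) y = 0 := fun i y => psd_zero hP (e0 i) y
  have g1 : ∀ i y, R y (i, 1) = 0 ∧ R (i, 1) y = 0 := fun i y => psd_zero hP (e1 i) y
  have t : (R (0, 2) (0, 2)).re + (R (0, 3) (0, 3)).re + (R (1, 2) (1, 2)).re
      + (R (1, 3) (1, 3)).re = 1 := by
    have := congrArg Complex.re htr
    simp only [trace, diag_apply, Fintype.sum_prod_type, Fin.sum_univ_four, (f2 _ _).1, (f3 _ _).1,
      (g0 _ _).1, (g1 _ _).1, add_zero, zero_add, add_re, one_re] at this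
    linarith
  have n1 : 0 ≤ (R (0, 3) (0, 3)).re := (Complex.nonneg_iff.1 hP.diag_nonneg).1
  have n2 : 0 ≤ (R (1, 2) (1, 2)).re := (Complex.nonneg_iff.1 hP.diag_nonneg).1
  have q1 := psd_re hP ((0, 2) : Fin 4 × Fin 4) (1, 3)
  have q2 := psd_re hP ((0, 3) : Fin 4 × Fin 4) (1, 2)
  have main : ∑ n, (trace (R * ((Hex a b n)ᵀ ⊗ₖ Hex a b n))).re
      = a * b * ((R (0, 2) (1, 3)).re + (R (1, 3) (0, 2)).re + (R (0, 3) (1, 2)).re
        + (R (1, 2) (0, 3)).re + (R (0, 2) (0, 2)).re - (R (0, 3) (0, 3)).re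
        - (R (1, 2) (1, 2)).re + (R (1, 3) (1, 3)).re) := by
    rw [Fin.sum_univ_two]
    simp only [trace, diag_apply, mul_apply, Fintype.sum_prod_type, Fin.sum_univ_four,
      (f2 _ _).1, (f2 _ _).2, (f3 _ _).1, (f3 _ _).2, (g0 _ _).1, (g0 _ _).2, (g1 _ _).1,
      (g1 _ _).2, zero_mul, add_zero, zero_add]
    simp [Hex, kroneckerMap_apply]
    ring
  rw [main]
  have hab : 0 ≤ a * b := mul_nonneg ha hb
  nlinarith

lemma W_ρσ {a b : ℝ} (ha : 0 ≤ a) (hb : 0 ≤ b) : W (Hex a b) ρex σex = (a - b) ^ 2 := by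
  refine le_antisymm ((W_le (Hex_herm a b) coup_ρσ).trans (cost_ρσ a b).le) ?_
  refine le_csInf ⟨_, _, coup_ρσ, rfl⟩ ?_
  rintro c ⟨R, hR, rfl⟩
  rw [cost_eq (Hex a b) hR.2.1 hR.2.2, Finset.sum_add_distrib, tr_ρ, tr_σ]
  have := corr_le ha hb hR
  nlinarith

lemma W_ρρ (a b : ℝ) : W (Hex a b) ρex ρex = 0 :=
  le_antisymm ((W_le (Hex_herm a b) coup_ρρ).trans (cost_ρρ a b).le) (W_nonneg (Hex_herm a b) _ _)

lemma W_σσ (a b : ℝ) : W (Hex a b) σex σex = 0 :=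
  le_antisymm ((W_le (Hex_herm a b) coup_σσ).trans (cost_σσ a b).le) (W_nonneg (Hex_herm a b) _ _)

/-! ### The separable distances -/

lemma trace_proj_mul {d : ℕ} (ψ : Fin d → ℂ) (A : Matrix (Fin d) (Fin d) ℂ) :
    trace (proj ψ * A) = star ψ ⬝ᵥ A *ᵥ ψ := by
  rw [proj, vecMulVec_mul, trace_vecMulVec, dotProduct_comm, ← dotProduct_mulVec]

set_option linter.unusedSimpArgs false in
lemma tr1 {a b : ℝ} {ψ : Fin 4 → ℂ} (hψ2 : ψ 2 = 0) (hψ3 : ψ 3 = 0) :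
    trace (proj ψ * Hex a b 0) = ((a * (2 * ((ψ 0).re * (ψ 1).re + (ψ 0).im * (ψ 1).im)) : ℝ) : ℂ) := by
  rw [trace_proj_mul]
  apply Complex.ext <;>
    simp [dotProduct, mulVec, Fin.sum_univ_four, hψ2, hψ3, Hex] <;> ring

set_option linter.unusedSimpArgs false in
lemma tr2 {a b : ℝ} {ψ : Fin 4 → ℂ} (hψ2 : ψ 2 = 0) (hψ3 : ψ 3 = 0) :
    trace (proj ψ * Hex a b 1) = ((b * ((ψ 0).re ^ 2 + (ψ 0).im ^ 2
      - ((ψ 1).re ^ 2 + (ψ 1).im ^ 2)) : ℝ) : ℂ) := by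
  rw [trace_proj_mul]
  apply Complex.ext <;>
    simp [dotProduct, mulVec, Fin.sum_univ_four, hψ2, hψ3, Hex, ← Complex.ofReal_pow] <;> ring

lemma tr3 {a b : ℝ} {φ : Fin 4 → ℂ} (hφ0 : φ 0 = 0) (hφ1 : φ 1 = 0) :
    trace (proj φ * Hex a b 0) = ((b * (2 * ((φ 2).re * (φ 3).re + (φ 2).im * (φ 3).im)) : ℝ) : ℂ) := by
  rw [trace_proj_mul]
  apply Complex.ext <;>
    simp [dotProduct, mulVec, Fin.sum_univ_four, hφ0, hφ1, Hex] <;> ring

set_option linter.unusedSimpArgs false in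
lemma tr4 {a b : ℝ} {φ : Fin 4 → ℂ} (hφ0 : φ 0 = 0) (hφ1 : φ 1 = 0) :
    trace (proj φ * Hex a b 1) = ((a * ((φ 2).re ^ 2 + (φ 2).im ^ 2
      - ((φ 3).re ^ 2 + (φ 3).im ^ 2)) : ℝ) : ℂ) := by
  rw [trace_proj_mul]
  apply Complex.ext <;>
    simp [dotProduct, mulVec, Fin.sum_univ_four, hφ0, hφ1, Hex, ← Complex.ofReal_pow] <;> ring

lemma tr5 {a b : ℝ} {ψ : Fin 4 → ℂ} (hψ : star ψ ⬝ᵥ ψ = 1) (hψ2 : ψ 2 = 0) (hψ3 : ψ 3 = 0) :
    (trace (proj ψ * Hex a b 0 ^ 2)).re = a ^ 2 ∧ (trace (proj ψ * Hex a b 1 ^ 2)).re = b ^ 2 := by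
  have hn1 : (ψ 0).re ^ 2 + (ψ 0).im ^ 2 + (ψ 1).re ^ 2 + (ψ 1).im ^ 2 = 1 := by
    have := congrArg Complex.re hψ
    simp [dotProduct, Fin.sum_univ_four, hψ2, hψ3] at this
    nlinarith
  rw [Hsq0, Hsq1]
  simp only [trace_proj_mul]
  constructor
  · simp [dotProduct, mulVec, Fin.sum_univ_four, hψ2, hψ3, diagonal_apply,
      ← Complex.ofReal_pow]
    linear_combination a ^ 2 * hn1
  · simp [dotProduct, mulVec, Fin.sum_univ_four, hψ2, hψ3, diagonal_apply,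
      ← Complex.ofReal_pow]
    linear_combination b ^ 2 * hn1

lemma tr6 {a b : ℝ} {φ : Fin 4 → ℂ} (hφ : star φ ⬝ᵥ φ = 1) (hφ0 : φ 0 = 0) (hφ1 : φ 1 = 0) :
    (trace (proj φ * Hex a b 0 ^ 2)).re = b ^ 2 ∧ (trace (proj φ * Hex a b 1 ^ 2)).re = a ^ 2 := by
  have hn1 : (φ 2).re ^ 2 + (φ 2).im ^ 2 + (φ 3).re ^ 2 + (φ 3).im ^ 2 = 1 := by
    have := congrArg Complex.re hφ
    simp [dotProduct, Fin.sum_univ_four, hφ0, hφ1] at this
    nlinarith
  rw [Hsq0, Hsq1]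
  simp only [trace_proj_mul]
  constructor
  · simp [dotProduct, mulVec, Fin.sum_univ_four, hφ0, hφ1, diagonal_apply,
      ← Complex.ofReal_pow]
    linear_combination b ^ 2 * hn1
  · simp [dotProduct, mulVec, Fin.sum_univ_four, hφ0, hφ1, diagonal_apply,
      ← Complex.ofReal_pow]
    linear_combination a ^ 2 * hn1

/-- The Bloch vector inequality in the `x`-`z` plane. -/
lemma bloch {p q r s p' q' r' s' : ℝ} (h : p ^ 2 + q ^ 2 + r ^ 2 + s ^ 2 = 1)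
    (h' : p' ^ 2 + q' ^ 2 + r' ^ 2 + s' ^ 2 = 1) :
    2 * (p * r + q * s) * (2 * (p' * r' + q' * s'))
      + (p ^ 2 + q ^ 2 - (r ^ 2 + s ^ 2)) * (p' ^ 2 + q' ^ 2 - (r' ^ 2 + s' ^ 2)) ≤ 1 := by
  have k1 : (2 * (p * r + q * s)) ^ 2 + (p ^ 2 + q ^ 2 - (r ^ 2 + s ^ 2)) ^ 2 ≤ 1 := by
    have : (2 * (p * r + q * s)) ^ 2 + (p ^ 2 + q ^ 2 - (r ^ 2 + s ^ 2)) ^ 2
        = (p ^ 2 + q ^ 2 + r ^ 2 + s ^ 2) ^ 2 - (2 * (p * s - q * r)) ^ 2 := by ring
    rw [this, h]; nlinarith [sq_nonneg (2 * (p * s - q * r))]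
  have k2 : (2 * (p' * r' + q' * s')) ^ 2 + (p' ^ 2 + q' ^ 2 - (r' ^ 2 + s' ^ 2)) ^ 2 ≤ 1 := by
    have : (2 * (p' * r' + q' * s')) ^ 2 + (p' ^ 2 + q' ^ 2 - (r' ^ 2 + s' ^ 2)) ^ 2
        = (p' ^ 2 + q' ^ 2 + r' ^ 2 + s' ^ 2) ^ 2 - (2 * (p' * s' - q' * r')) ^ 2 := by ring
    rw [this, h']; nlinarith [sq_nonneg (2 * (p' * s' - q' * r'))]
  nlinarith [sq_nonneg (2 * (p * r + q * s) - 2 * (p' * r' + q' * s')),
    sq_nonneg ((p ^ 2 + q ^ 2 - (r ^ 2 + s ^ 2)) - (p' ^ 2 + q' ^ 2 - (r' ^ 2 + s' ^ 2)))]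

/-- lower bound of the cost of a pair of unit vectors in the two blocks -/
lemma W_pure_lower {a b : ℝ} (ha : 0 ≤ a) (hb : 0 ≤ b) {ψ φ : Fin 4 → ℂ}
    (hψ : star ψ ⬝ᵥ ψ = 1) (hφ : star φ ⬝ᵥ φ = 1) (hψ2 : ψ 2 = 0) (hψ3 : ψ 3 = 0)
    (hφ0 : φ 0 = 0) (hφ1 : φ 1 = 0) :
    a ^ 2 + b ^ 2 - a * b ≤ W (Hex a b) (proj ψ) (proj φ) := by
  have hn1 : (ψ 0).re ^ 2 + (ψ 0).im ^ 2 + (ψ 1).re ^ 2 + (ψ 1).im ^ 2 = 1 := by
    have := congrArg Complex.re hψ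
    simp [dotProduct, Fin.sum_univ_four, hψ2, hψ3] at this
    nlinarith
  have hn2 : (φ 2).re ^ 2 + (φ 2).im ^ 2 + (φ 3).re ^ 2 + (φ 3).im ^ 2 = 1 := by
    have := congrArg Complex.re hφ
    simp [dotProduct, Fin.sum_univ_four, hφ0, hφ1] at this
    nlinarith
  rw [W_pure (Hex a b) hψ hφ, Fin.sum_univ_two, Fin.sum_univ_two, (tr5 hψ hψ2 hψ3).1,
    (tr5 hψ hψ2 hψ3).2, (tr6 hφ hφ0 hφ1).1, (tr6 hφ hφ0 hφ1).2, tr1 hψ2 hψ3, tr2 hψ2 hψ3,
    tr3 hφ0 hφ1, tr4 hφ0 hφ1, ← Complex.ofReal_mul, ← Complex.ofReal_mul, Complex.ofReal_re,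
    Complex.ofReal_re]
  have hab : 0 ≤ a * b := mul_nonneg ha hb
  nlinarith [mul_le_mul_of_nonneg_left (bloch hn1 hn2) hab]

lemma fam_ρσ : IsSepFamily ρex σex ![1/2, 1/2] ![Pi.single 0 1, Pi.single 1 1]
    ![Pi.single 2 1, Pi.single 3 1] := by
  refine ⟨?_, ?_, ?_, ?_, ?_, ?_⟩
  · intro k; fin_cases k <;> simp
  · simp [Fin.sum_univ_two]; norm_num
  · intro k; fin_cases k <;> simp [Pi.star_single]
  · intro k; fin_cases k <;> simp [Pi.star_single]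
  · ext i j
    fin_cases i <;> fin_cases j <;>
      simp [Fin.sum_univ_two, proj, vecMulVec_apply, ρex]
  · ext i j
    fin_cases i <;> fin_cases j <;>
      simp [Fin.sum_univ_two, proj, vecMulVec_apply, σex]

lemma Wsep_ρσ {a b : ℝ} (ha : 0 ≤ a) (hb : 0 ≤ b) :
    a ^ 2 + b ^ 2 - a * b ≤ Wsep (Hex a b) ρex σex := by
  refine le_csInf ⟨_, _, _, _, _, fam_ρσ, rfl⟩ ?_
  rintro c ⟨K, p, Ψ, Φ, h, rfl⟩
  obtain ⟨hp, hs, hΨ, hΦ, h1, h2⟩ := h
  have z2 : ∀ k, Ψ k 2 = 0 := support_zero hp h1 (by simp [ρex])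
  have z3 : ∀ k, Ψ k 3 = 0 := support_zero hp h1 (by simp [ρex])
  have z0 : ∀ k, Φ k 0 = 0 := support_zero hp h2 (by simp [σex])
  have z1 : ∀ k, Φ k 1 = 0 := support_zero hp h2 (by simp [σex])
  calc a ^ 2 + b ^ 2 - a * b = ∑ k, p k * (a ^ 2 + b ^ 2 - a * b) := by
        rw [← Finset.sum_mul, hs, one_mul]
    _ ≤ _ := Finset.sum_le_sum fun k _ => mul_le_mul_of_nonneg_left
        (W_pure_lower ha hb (hΨ k) (hΦ k) (z2 k) (z3 k) (z0 k) (z1 k)) (hp k).le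

/-- the vectors `(e₀ ± e₁)/√2`, up to a phase -/
noncomputable def vpm (k : Fin 2) : Fin 4 → ℂ :=
  ![⟨1/2, 1/2⟩, if k = 0 then ⟨1/2, 1/2⟩ else ⟨-1/2, -1/2⟩, 0, 0]

lemma proj_apply {d : ℕ} (ψ : Fin d → ℂ) (i j : Fin d) : proj ψ i j = ψ i * star (ψ j) := by
  simp [proj, vecMulVec_apply]

lemma fam_ρρ : IsSepFamily ρex ρex ![1/2, 1/2] vpm vpm := by
  have hu : ∀ k : Fin 2, star (vpm k) ⬝ᵥ vpm k = 1 := by
    intro k
    fin_cases k <;> apply Complex.ext <;>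
      simp [dotProduct, Fin.sum_univ_four, vpm] <;> norm_num
  have hd : ∑ k : Fin 2, (((![1/2, 1/2] : Fin 2 → ℝ) k : ℝ) : ℂ) • proj (vpm k) = ρex := by
    ext i j
    rw [Fin.sum_univ_two, Matrix.add_apply, Matrix.smul_apply, Matrix.smul_apply, proj_apply,
      proj_apply]
    fin_cases i <;> fin_cases j <;> apply Complex.ext <;>
      simp [vpm, ρex] <;> norm_num
  refine ⟨?_, ?_, hu, hu, hd, hd⟩
  · intro k; fin_cases k <;> simp
  · simp [Fin.sum_univ_two]; norm_num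

lemma fam_σσ : IsSepFamily σex σex ![1/2, 1/2] ![Pi.single 2 1, Pi.single 3 1]
    ![Pi.single 2 1, Pi.single 3 1] := by
  refine ⟨?_, ?_, ?_, ?_, ?_, ?_⟩
  · intro k; fin_cases k <;> simp
  · simp [Fin.sum_univ_two]; norm_num
  · intro k; fin_cases k <;> simp [Pi.star_single]
  · intro k; fin_cases k <;> simp [Pi.star_single]
  · ext i j
    fin_cases i <;> fin_cases j <;>
      simp [Fin.sum_univ_two, proj, vecMulVec_apply, σex]
  · ext i j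
    fin_cases i <;> fin_cases j <;>
      simp [Fin.sum_univ_two, proj, vecMulVec_apply, σex]

lemma Wsep_ρρ (a b : ℝ) : Wsep (Hex a b) ρex ρex ≤ b ^ 2 := by
  refine (Wsep_le (Hex_herm a b) fam_ρρ).trans ?_
  have hu := fam_ρρ.2.2.1
  rw [Fin.sum_univ_two, W_pure (Hex a b) (hu 0) (hu 0), W_pure (Hex a b) (hu 1) (hu 1)]
  simp only [Fin.sum_univ_two]
  rw [(tr5 (hu 0) rfl rfl).1, (tr5 (hu 0) rfl rfl).2, (tr5 (hu 1) rfl rfl).1,
    (tr5 (hu 1) rfl rfl).2, tr1 (ψ := _) rfl rfl, tr2 (ψ := _) rfl rfl,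
    tr1 (ψ := _) rfl rfl, tr2 (ψ := _) rfl rfl]
  simp only [← Complex.ofReal_mul, Complex.ofReal_re]
  apply le_of_eq
  simp [vpm]
  ring

lemma Wsep_σσ (a b : ℝ) : Wsep (Hex a b) σex σex ≤ b ^ 2 := by
  refine (Wsep_le (Hex_herm a b) fam_σσ).trans ?_
  have hu := fam_σσ.2.2.1
  rw [Fin.sum_univ_two, W_pure (Hex a b) (hu 0) (hu 0), W_pure (Hex a b) (hu 1) (hu 1)]
  simp only [Fin.sum_univ_two]
  rw [(tr6 (hu 0) rfl rfl).1, (tr6 (hu 0) rfl rfl).2, (tr6 (hu 1) rfl rfl).1,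
    (tr6 (hu 1) rfl rfl).2, tr3 (φ := _) rfl rfl, tr4 (φ := _) rfl rfl,
    tr3 (φ := _) rfl rfl, tr4 (φ := _) rfl rfl]
  simp only [← Complex.ofReal_mul, Complex.ofReal_re]
  simp
  nlinarith

/-- **Negative answer to Q1, with no multiplicative constant either.**  For every real `C` there
are two Hermitian matrices on `ℂ⁴` and two states `ρ, σ` with `W̃(ρ,σ) > 0` and
`W̃_sep(ρ,σ) > C · W̃(ρ,σ)`.  (`C = 1` refutes the inequality asked about.) -/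
theorem result : ∀ C : ℝ, ∃ (H : Fin 2 → Matrix (Fin 4) (Fin 4) ℂ)
    (ρ σ : Matrix (Fin 4) (Fin 4) ℂ), (∀ n, (H n).IsHermitian) ∧ IsState ρ ∧ IsState σ ∧
      0 < Wmod H ρ σ ∧ C * Wmod H ρ σ < Wsepmod H ρ σ := by
  intro C
  -- take `b = max |C| 1` and `a = b + 1`
  set b : ℝ := |C| + 1 with hb
  have hb1 : 1 ≤ b := by rw [hb]; linarith [abs_nonneg C]
  have hbC : C < b + 1 := by rw [hb]; linarith [le_abs_self C]
  refine ⟨Hex (b + 1) b, ρex, σex, Hex_herm _ _, ρex_state, σex_state, ?_, ?_⟩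
  · rw [Wmod, W_ρσ (by linarith) (by linarith), W_ρρ, W_σσ]
    norm_num
  · have h1 := Wsep_ρσ (a := b + 1) (b := b) (by linarith) (by linarith)
    have h2 := Wsep_ρρ (b + 1) b
    have h3 := Wsep_σσ (b + 1) b
    rw [Wmod, Wsepmod, W_ρσ (by linarith) (by linarith), W_ρρ, W_σσ]
    nlinarith

end Pool.Agent.Results.MP_9a8b60_mp.SepCounterexample
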